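import Pool.Agent.V11100.BC.Rect

/-!
# Hussain chains: if `3` does not divide the degree, open claws exist at every vertex
-/

set_option autoImplicit false

namespace Pool.Agent.V11100.BC

open Finset

variable {W : Type} {adj : W → W → Prop}

theorem exists_open (R : Rect W adj) {x z : W} (N : Finset W) (hN : ∀ i, i ∈ N ↔ adj x i)
    (hz : ∀ i ∈ N, ∃ y y', y ≠ y' ∧ adj y i ∧ adj y z ∧ adj y' i ∧ adj y' z)
    (hxz : ¬ adj x z) (h3 : ¬ 3 ∣ N.card) :
    ∃ i j l, i ≠ j ∧ i ≠ l ∧ j ≠ l ∧ adj x i ∧ adj x j ∧ adj x l ∧ ¬ Cl R x i j l ∧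
      z = oth R i (oth R x i j) (oth R x i l) := by
  classical
  by_contra hno
  have hiz : ∀ i ∈ N, z ≠ i := fun i hi h => hxz (by rw [h]; exact (hN i).1 hi)
  -- transitivity
  have htr : ∀ i ∈ N, ∀ m ∈ N, ∀ n ∈ N, i ≠ m → i ≠ n → m ≠ n → adj z (oth R x i m) →
      adj z (oth R x i n) → adj z (oth R x m n) := by
    intro i hi m hm n hn him hin hmn h1 h2
    have xi := (hN i).1 hi
    have xm := (hN m).1 hm
    have xn := (hN n).1 hn
    obtain ⟨a1, a2, a3⟩ := oth_spec R him xi xm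
    obtain ⟨b1, b2, b3⟩ := oth_spec R hin xi xn
    have hne := oth_ne R him hin hmn xi xm xn
    have ez : z = oth R i (oth R x i m) (oth R x i n) :=
      oth_unique R hne (R.symm _ _ a2) (R.symm _ _ b2) (hiz i hi) h1 h2
    have hcl : Cl R x i m n := by
      by_contra hh
      exact hno ⟨i, m, n, him, hin, hmn, xi, xm, xn, hh, ez⟩
    obtain ⟨d, d1, d2, d3⟩ := hcl
    have hdi : d ≠ i := by
      rintro rfl
      exact not_adj_third R hmn (Ne.symm him) (Ne.symm hin) xm xn xi d3
    have ed := oth_unique R hne (R.symm _ _ a2) (R.symm _ _ b2) hdi d1 d2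
    rw [ez, ← ed]
    exact d3
  let f : W → Finset W := fun i => N.filter (fun m => m = i ∨ (m ≠ i ∧ adj z (oth R x i m)))
  -- the two neighbours in the chain
  have hcard : ∀ i ∈ N, (f i).card = 3 := by
    intro i hi
    have xi := (hN i).1 hi
    obtain ⟨y, y', hyy, y1, y2, y3, y4⟩ := hz i hi
    have key : ∀ y, adj y i → adj y z → ∃ j ∈ N, j ≠ i ∧ y = oth R x i j := by
      intro y y1 y2
      have hyx : y ≠ x := fun h => hxz (by rw [← h]; exact y2)
      obtain ⟨s1, s2, s3⟩ := oth_spec R (x := i) (a := x) (b := y) (Ne.symm hyx)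
        (R.symm _ _ xi) (R.symm _ _ y1)
      refine ⟨oth R i x y, (hN _).2 (R.symm _ _ s2), s1, ?_⟩
      exact oth_unique R (Ne.symm s1) xi (R.symm _ _ s2) hyx y1 (R.symm _ _ s3)
    obtain ⟨j, hj, hji, ej⟩ := key y y1 y2
    obtain ⟨l, hl, hli, el⟩ := key y' y3 y4
    have hjl : j ≠ l := fun h => hyy (by rw [ej, el, h])
    have hf : f i = {i, j, l} := by
      ext m
      simp only [f, mem_filter, mem_insert, mem_singleton]
      constructor
      · rintro ⟨hm, rfl | ⟨hmi, hmz⟩⟩
        · exact Or.inl rfl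
        · right
          by_contra hcon
          push Not at hcon
          have xm := (hN m).1 hm
          obtain ⟨c1, c2, c3⟩ := oth_spec R (Ne.symm hmi) xi xm
          have n1 : y ≠ oth R x i m := by
            rw [ej]
            exact oth_ne R (Ne.symm hji) (Ne.symm hmi) (Ne.symm hcon.1) xi ((hN j).1 hj) xm
          have n2 : y' ≠ oth R x i m := by
            rw [el]
            exact oth_ne R (Ne.symm hli) (Ne.symm hmi) (Ne.symm hcon.2) xi ((hN l).1 hl) xm
          exact three R (Ne.symm (hiz i hi)) hyy n1 n2 (R.symm _ _ y1) (R.symm _ _ y3)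
            (R.symm _ _ c2) (R.symm _ _ y2) (R.symm _ _ y4) hmz
      · rintro (rfl | rfl | rfl)
        · exact ⟨hi, Or.inl rfl⟩
        · exact ⟨hj, Or.inr ⟨hji, by rw [← ej]; exact R.symm _ _ y2⟩⟩
        · exact ⟨hl, Or.inr ⟨hli, by rw [← el]; exact R.symm _ _ y4⟩⟩
    rw [hf]
    exact card_eq_three.2 ⟨i, j, l, Ne.symm hji, Ne.symm hli, hjl, rfl⟩
  have hsub : ∀ i ∈ N, ∀ m ∈ f i, f i = f m := by
    intro i hi m hm
    have hmN : m ∈ N := (mem_filter.1 hm).1
    apply eq_of_subset_of_card_le _ (by rw [hcard i hi, hcard m hmN])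
    rcases (mem_filter.1 hm).2 with rfl | ⟨hmi, hmz⟩
    · exact Subset.refl _
    · intro n hn
      have hnN : n ∈ N := (mem_filter.1 hn).1
      refine mem_filter.2 ⟨hnN, ?_⟩
      by_cases hnm : n = m
      · exact Or.inl hnm
      right
      refine ⟨hnm, ?_⟩
      rcases (mem_filter.1 hn).2 with rfl | ⟨hni, hnz⟩
      · rw [oth_comm R hmi ((hN m).1 hmN) ((hN n).1 hi)]
        exact hmz
      · exact htr i hi m hmN n hnN (Ne.symm hmi) (Ne.symm hni) (Ne.symm hnm) hmz hnz
  apply h3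
  rw [card_eq_sum_card_image f N]
  apply dvd_sum
  intro b hb
  obtain ⟨i, hi, rfl⟩ := mem_image.1 hb
  have : (N.filter fun a => f a = f i) = f i := by
    ext a
    constructor
    · intro ha
      obtain ⟨ha1, ha2⟩ := mem_filter.1 ha
      rw [← ha2]
      exact mem_filter.2 ⟨ha1, Or.inl rfl⟩
    · intro ha
      exact mem_filter.2 ⟨(mem_filter.1 ha).1, (hsub i hi a ha).symm⟩
  rw [this, hcard i hi]

end Pool.Agent.V11100.BC
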