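import Mathlib

/-!
# Symmetric designs with `λ = 2`: point degrees and block intersections
-/

set_option autoImplicit false

namespace Pool.Agent.V11100.BC

open Finset

theorem local_count {v k : ℕ} {B : Fin v → Finset (Fin v)} (hs : ∀ j, (B j).card = k)
    (hp : ∀ p q, p ≠ q → (univ.filter (fun j => p ∈ B j ∧ q ∈ B j)).card = 2) (p : Fin v) :
    (univ.filter (fun j => p ∈ B j)).card * k =
      (univ.filter (fun j => p ∈ B j)).card + 2 * (v - 1) := by
  classical
  have h1 : ∑ j ∈ univ.filter (fun j => p ∈ B j), (B j).card =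
      (univ.filter (fun j => p ∈ B j)).card * k := by
    rw [sum_congr rfl (fun j _ => hs j), sum_const, smul_eq_mul]
  have h2 : ∑ j ∈ univ.filter (fun j => p ∈ B j), (B j).card =
      ∑ q : Fin v, (univ.filter (fun j => p ∈ B j ∧ q ∈ B j)).card := by
    have e1 : ∀ j, (B j).card = ∑ q : Fin v, if q ∈ B j then 1 else 0 := by
      intro j
      rw [← card_filter]
      congr 1
      ext q; simp
    rw [sum_congr rfl (fun j _ => e1 j), sum_comm]
    apply sum_congr rfl
    intro q _
    rw [← card_filter, filter_filter]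
  have h3 : ∑ q : Fin v, (univ.filter (fun j => p ∈ B j ∧ q ∈ B j)).card =
      (univ.filter (fun j => p ∈ B j)).card + 2 * (v - 1) := by
    rw [← Finset.add_sum_erase univ _ (mem_univ p)]
    have e2 : ∑ q ∈ univ.erase p, (univ.filter (fun j => p ∈ B j ∧ q ∈ B j)).card =
        ∑ q ∈ univ.erase p, 2 :=
      sum_congr rfl fun q hq => hp p q (Ne.symm (ne_of_mem_erase hq))
    rw [e2, sum_const, card_erase_of_mem (mem_univ p), card_univ, Fintype.card_fin, smul_eq_mul]
    simp only [and_self]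
    rw [mul_comm]
  omega

theorem deg_of {v k : ℕ} {B : Fin v → Finset (Fin v)} (hk : 2 ≤ k) (hv : 0 < v)
    (hs : ∀ j, (B j).card = k)
    (hp : ∀ p q, p ≠ q → (univ.filter (fun j => p ∈ B j ∧ q ∈ B j)).card = 2) (p : Fin v) :
    (univ.filter (fun j => p ∈ B j)).card = k := by
  classical
  have hsum : ∑ p : Fin v, (univ.filter (fun j => p ∈ B j)).card = v * k := by
    have e1 : ∀ p : Fin v, (univ.filter (fun j => p ∈ B j)).card =
        ∑ j : Fin v, if p ∈ B j then 1 else 0 := fun p => card_filter _ _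
    rw [sum_congr rfl (fun p _ => e1 p), sum_comm]
    have e2 : ∀ j : Fin v, (∑ p : Fin v, if p ∈ B j then 1 else 0) = k := by
      intro j
      rw [← card_filter, ← hs j]
      congr 1
      ext q; simp
    rw [sum_congr rfl (fun j _ => e2 j), sum_const, card_univ, Fintype.card_fin, smul_eq_mul]
  have hl := local_count hs hp
  obtain ⟨m, rfl⟩ : ∃ m, k = m + 1 := ⟨k - 1, by omega⟩
  have hm : 0 < m := by omega
  have hl2 : ∀ p, (univ.filter (fun j => p ∈ B j)).card * m = 2 * (v - 1) := by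
    intro p
    have := hl p
    rw [mul_add, mul_one] at this
    omega
  have htot : v * (m + 1) * m = v * (2 * (v - 1)) := by
    rw [← hsum, sum_mul, sum_congr rfl (fun p _ => hl2 p), sum_const, card_univ,
      Fintype.card_fin, smul_eq_mul]
  rw [mul_assoc] at htot
  have h4 : (m + 1) * m = 2 * (v - 1) := Nat.eq_of_mul_eq_mul_left hv htot
  exact Nat.eq_of_mul_eq_mul_right hm ((hl2 p).trans h4.symm)

theorem meet_of {v k : ℕ} {B : Fin v → Finset (Fin v)} (hvk : k * k = (k - 2) + 2 * v)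
    (hk : 2 ≤ k) (hs : ∀ j, (B j).card = k)
    (hd : ∀ p, (univ.filter (fun j => p ∈ B j)).card = k)
    (hp : ∀ p q, p ≠ q → (univ.filter (fun j => p ∈ B j ∧ q ∈ B j)).card = 2)
    (i j : Fin v) (hij : i ≠ j) : (B i ∩ B j).card = 2 := by
  classical
  have c1 : ∀ j, ((B i ∩ B j).card : ℤ) = ∑ p ∈ B i, if p ∈ B j then 1 else 0 := by
    intro j
    rw [← Finset.filter_mem_eq_inter, card_filter]
    push_cast
    rfl
  have S1 : ∑ j : Fin v, ((B i ∩ B j).card : ℤ) = k * k := by
    rw [sum_congr rfl (fun j _ => c1 j), sum_comm]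
    have e2 : ∀ p ∈ B i, (∑ j : Fin v, if p ∈ B j then (1 : ℤ) else 0) = k := by
      intro p _
      rw [← hd p, card_filter]
      push_cast
      rfl
    rw [sum_congr rfl e2, sum_const, hs i, nsmul_eq_mul]
  have S2 : ∑ j : Fin v, ((B i ∩ B j).card : ℤ) ^ 2 = k * (k + 2 * (k - 1)) := by
    have c2 : ∀ j, ((B i ∩ B j).card : ℤ) ^ 2 = ∑ p ∈ B i, ∑ q ∈ B i,
        if p ∈ B j ∧ q ∈ B j then 1 else 0 := by
      intro j
      rw [pow_two, c1 j, sum_mul_sum]
      apply sum_congr rfl
      intro p _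
      apply sum_congr rfl
      intro q _
      by_cases h1 : p ∈ B j <;> by_cases h2 : q ∈ B j <;> simp [h1, h2]
    rw [sum_congr rfl (fun j _ => c2 j), sum_comm]
    have e2 : ∀ p ∈ B i, (∑ j : Fin v, ∑ q ∈ B i, if p ∈ B j ∧ q ∈ B j then (1 : ℤ) else 0) =
        k + 2 * (k - 1) := by
      intro p hpi
      rw [sum_comm]
      have e3 : ∀ q ∈ B i, (∑ j : Fin v, if p ∈ B j ∧ q ∈ B j then (1 : ℤ) else 0) =
          ((univ.filter (fun j => p ∈ B j ∧ q ∈ B j)).card : ℤ) := by
        intro q _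
        rw [card_filter]
        push_cast
        rfl
      rw [sum_congr rfl e3, ← Finset.add_sum_erase (B i) _ hpi]
      have e4 : ∑ q ∈ (B i).erase p, ((univ.filter (fun j => p ∈ B j ∧ q ∈ B j)).card : ℤ) =
          ∑ q ∈ (B i).erase p, 2 := by
        apply sum_congr rfl
        intro q hq
        rw [hp p q (Ne.symm (ne_of_mem_erase hq))]
        norm_num
      rw [e4, sum_const, card_erase_of_mem hpi, hs i, nsmul_eq_mul]
      simp only [and_self]
      rw [hd p]
      push_cast [Nat.cast_sub (by omega : 1 ≤ k)]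
      ring
    rw [sum_congr rfl e2, sum_const, hs i, nsmul_eq_mul]
  have hz : (k : ℤ) * k = k - 2 + 2 * v := by
    have := congrArg (Nat.cast : ℕ → ℤ) hvk
    push_cast [Nat.cast_sub hk] at this
    exact this
  have S3 : ∑ j : Fin v, (((B i ∩ B j).card : ℤ) - 2) ^ 2 = ((k : ℤ) - 2) ^ 2 := by
    have : ∀ j : Fin v, (((B i ∩ B j).card : ℤ) - 2) ^ 2 =
        ((B i ∩ B j).card : ℤ) ^ 2 - 4 * ((B i ∩ B j).card : ℤ) + 4 := fun j => by ring
    rw [sum_congr rfl (fun j _ => this j), sum_add_distrib, sum_sub_distrib, ← mul_sum, S1, S2,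
      sum_const, card_univ, Fintype.card_fin, nsmul_eq_mul]
    nlinarith
  rw [← Finset.add_sum_erase univ _ (mem_univ i)] at S3
  simp only [inter_self, hs i] at S3
  have S4 : ∑ j ∈ univ.erase i, (((B i ∩ B j).card : ℤ) - 2) ^ 2 = 0 := by linarith
  have S5 := (sum_eq_zero_iff_of_nonneg (fun j _ => sq_nonneg _)).1 S4 j
    (mem_erase.2 ⟨Ne.symm hij, mem_univ _⟩)
  have S6 : ((B i ∩ B j).card : ℤ) - 2 = 0 := by
    exact pow_eq_zero_iff (two_ne_zero) |>.1 S5
  omega

end Pool.Agent.V11100.BC
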