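import Pool.Agent.V11100.BC.Rect

/-!
# An open claw produces an open claw for every further direction
-/

set_option autoImplicit false

namespace Pool.Agent.V11100.BC

open Finset

variable {W : Type} {adj : W → W → Prop}

/-- Half of the argument: `g` is adjacent to `w_ac`. -/
theorem half (R : Rect W adj) {x a b c d e e' c' : W} (hab : a ≠ b) (hac : a ≠ c) (had : a ≠ d)
    (hbc : b ≠ c) (hbd : b ≠ d) (hcd : c ≠ d) (xa : adj x a) (xb : adj x b) (xc : adj x c)
    (xd : adj x d) (e1 : adj e (oth R x a b)) (e2 : adj e (oth R x a d))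
    (f1 : adj e' (oth R x a c)) (f2 : adj e' (oth R x a d)) (hee : e ≠ e')
    (ge : adj c' e) (ge' : adj c' e')
    (hc1 : c' ≠ oth R x a b) (hc2 : c' ≠ oth R x a d) (hea : e ≠ a) (hea' : e' ≠ a)
    (hcl : Cl R e (oth R x a b) (oth R x a d) c') :
    adj (oth R e (oth R x a b) c') (oth R x a c) := by
  obtain ⟨wab1, wab2, wab3⟩ := oth_spec R hab xa xb
  obtain ⟨wad1, wad2, wad3⟩ := oth_spec R had xa xd
  obtain ⟨wac1, wac2, wac3⟩ := oth_spec R hac xa xc
  have hne1 : oth R x a b ≠ oth R x a d := oth_ne R hab had hbd xa xb xd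
  have hne2 : oth R x a d ≠ oth R x a c := oth_ne R had hac (Ne.symm hcd) xa xd xc
  have ec' : adj e c' := R.symm _ _ ge
  obtain ⟨g1, g2, g3⟩ := oth_spec R (Ne.symm hc1) e1 ec'
  -- the second common neighbours at `e`
  have k1 : a = oth R e (oth R x a b) (oth R x a d) :=
    oth_unique R hne1 e1 e2 (Ne.symm hea) (R.symm _ _ wab2) (R.symm _ _ wad2)
  have k2 : e' = oth R e (oth R x a d) c' :=
    oth_unique R (Ne.symm hc2) e2 ec' (Ne.symm hee) f2 (R.symm _ _ ge')
  obtain ⟨h, h1, h2, h3⟩ := hcl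
  rw [← k1] at h1
  rw [← k2] at h3
  -- `h` is a common neighbour of `a` and `e'`
  by_cases hh : h = oth R x a d
  · exfalso
    rw [hh] at h2
    -- g adjacent to w_ab, c', w_ad
    exact three R (x := e) (w := oth R e (oth R x a b) c') g1.symm (Ne.symm hc1) hne1
      hc2 e1 ec' e2 g2 g3 (R.symm _ _ h2)
  · have hac' : h = oth R x a c := by
      have m1 := oth_unique R (x := oth R x a d) (a := a) (b := e') (z := h) (Ne.symm hea')
        wad2 (R.symm _ _ f2) hh h1 h3
      have m2 := oth_unique R (x := oth R x a d) (a := a) (b := e') (z := oth R x a c)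
        (Ne.symm hea') wad2 (R.symm _ _ f2) (Ne.symm hne2) wac2 (R.symm _ _ f1)
      rw [m1, m2]
    rw [hac'] at h2
    exact R.symm _ _ h2

/-- If the six claws are closed then `x; a, b, c` is closed. -/
theorem six (R : Rect W adj) {x a b c d : W} (hab : a ≠ b) (hac : a ≠ c) (had : a ≠ d)
    (hbc : b ≠ c) (hbd : b ≠ d) (hcd : c ≠ d) (xa : adj x a) (xb : adj x b) (xc : adj x c)
    (xd : adj x d) (c1 : Cl R x a b d) (c2 : Cl R x a c d) (c3 : Cl R x b c d)
    (c4 : Cl R d (oth R x a d) (oth R x b d) (oth R x c d))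
    (c5 : ∀ e c', e ≠ oth R x a b → c' ≠ oth R x a b → c' ≠ oth R x a d →
      adj e (oth R x a b) → adj e (oth R x a d) → adj e c' →
      Cl R e (oth R x a b) (oth R x a d) c')
    (c6 : ∀ e c', e ≠ oth R x a b → c' ≠ oth R x a b → c' ≠ oth R x b d →
      adj e (oth R x a b) → adj e (oth R x b d) → adj e c' →
      Cl R e (oth R x a b) (oth R x b d) c') (hirr : ∀ u, ¬ adj u u) : Cl R x a b c := by
  obtain ⟨e, e1, e2, e3⟩ := c1
  obtain ⟨f, f1, f2, f3⟩ := c2
  obtain ⟨g, g1, g2, g3⟩ := c3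
  obtain ⟨h, h1, h2, h3⟩ := c4
  obtain ⟨wab1, wab2, wab3⟩ := oth_spec R hab xa xb
  obtain ⟨wad1, wad2, wad3⟩ := oth_spec R had xa xd
  obtain ⟨wac1, wac2, wac3⟩ := oth_spec R hac xa xc
  obtain ⟨wbd1, wbd2, wbd3⟩ := oth_spec R hbd xb xd
  obtain ⟨wcd1, wcd2, wcd3⟩ := oth_spec R hcd xc xd
  obtain ⟨wbc1, wbc2, wbc3⟩ := oth_spec R hbc xb xc
  -- w's around d are different
  have n1 : oth R x a d ≠ oth R x b d := by
    rw [oth_comm R had xa xd, oth_comm R hbd xb xd]
    exact oth_ne R (Ne.symm had) (Ne.symm hbd) hab xd xa xb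
  have n2 : oth R x a d ≠ oth R x c d := by
    rw [oth_comm R had xa xd, oth_comm R hcd xc xd]
    exact oth_ne R (Ne.symm had) (Ne.symm hcd) hac xd xa xc
  have n3 : oth R x b d ≠ oth R x c d := by
    rw [oth_comm R hbd xb xd, oth_comm R hcd xc xd]
    exact oth_ne R (Ne.symm hbd) (Ne.symm hcd) hbc xd xb xc
  have da : adj d (oth R x a d) := R.symm _ _ wad3
  have db : adj d (oth R x b d) := R.symm _ _ wbd3
  have dc : adj d (oth R x c d) := R.symm _ _ wcd3
  -- e, f, g are different from d and are the second common neighbours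
  have ed : e ≠ d := by
    rintro rfl
    exact not_adj_third R hab had hbd xa xb xd e1
  have fd : f ≠ d := by
    rintro rfl
    exact not_adj_third R hac had hcd xa xc xd f1
  have gd : g ≠ d := by
    rintro rfl
    exact not_adj_third R hbc hbd hcd xb xc xd g1
  have ke : e = oth R d (oth R x a d) (oth R x b d) := oth_unique R n1 da db ed e2 e3
  have kf : f = oth R d (oth R x a d) (oth R x c d) := oth_unique R n2 da dc fd f2 f3
  have kg : g = oth R d (oth R x b d) (oth R x c d) := oth_unique R n3 db dc gd g2 g3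
  rw [← ke] at h1
  rw [← kf] at h2
  rw [← kg] at h3
  have ef : e ≠ f := by
    rw [ke, kf]; exact oth_ne R n1 n2 n3 da db dc
  have eg : e ≠ g := by
    rw [ke, kg, oth_comm R n1 da db]; exact oth_ne R (Ne.symm n1) n3 n2 db da dc
  have ea : e ≠ a := by
    rintro rfl
    exact not_adj_third R hbd (Ne.symm hab) (Ne.symm had) xb xd xa e3
  have eb : e ≠ b := by
    rintro rfl
    exact not_adj_third R had hab (Ne.symm hbd) xa xd xb e2
  have fa : f ≠ a := by
    rintro rfl
    exact not_adj_third R hcd (Ne.symm hac) (Ne.symm had) xc xd xa f3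
  have gb : g ≠ b := by
    rintro rfl
    exact not_adj_third R hcd (Ne.symm hbc) (Ne.symm hbd) xc xd xb g3
  -- h is none of the w's
  have hne1 : oth R x a b ≠ oth R x a d := oth_ne R hab had hbd xa xb xd
  have hne1' : oth R x a b ≠ oth R x b d := by
    rw [oth_comm R hab xa xb]; exact oth_ne R (Ne.symm hab) hbd had xb xa xd
  have hab' : h ≠ oth R x a b := by
    intro hh
    rw [hh] at h2
    exact three R (x := oth R x a b) (w := oth R x a d) hne1 (Ne.symm ea) (Ne.symm fa) ef
      wab2 (R.symm _ _ e1) h2 wad2 (R.symm _ _ e2) (R.symm _ _ f2)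
  have had' : h ≠ oth R x a d := by
    intro hh
    rw [hh] at h3
    exact three R (x := oth R x a d) (w := oth R x b d) n1 (Ne.symm ed) (Ne.symm gd) eg
      wad3 (R.symm _ _ e2) h3 wbd3 (R.symm _ _ e3) (R.symm _ _ g2)
  have hbd' : h ≠ oth R x b d := by
    intro hh
    rw [hh] at h2
    exact three R (x := oth R x b d) (w := oth R x a d) (Ne.symm n1) (Ne.symm ed) (Ne.symm fd) ef
      wbd3 (R.symm _ _ e3) h2 wad3 (R.symm _ _ e2) (R.symm _ _ f2)
  have hee : e ≠ oth R x a b := by
    intro hh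
    rw [← hh] at e1
    exact hirr _ e1
  have cl5 := c5 e h hee hab' had' e1 e2 (R.symm _ _ h1)
  have cl6 := c6 e h hee hab' hbd' e1 e3 (R.symm _ _ h1)
  have r1 := half R hab hac had hbc hbd hcd xa xb xc xd e1 e2 f1 f2 ef h1 h2 hab' had' ea fa cl5
  have e1' : adj e (oth R x b a) := by rw [← oth_comm R hab xa xb]; exact e1
  have hab'' : h ≠ oth R x b a := by rw [← oth_comm R hab xa xb]; exact hab'
  have cl6' : Cl R e (oth R x b a) (oth R x b d) h := by rw [← oth_comm R hab xa xb]; exact cl6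
  have r2 := half R (Ne.symm hab) hbc hbd hac had hcd xb xa xc xd e1' e3 g1 g2 eg h1 h3
    hab'' hbd' eb gb cl6'
  rw [← oth_comm R hab xa xb] at r2
  obtain ⟨q1, q2, q3⟩ := oth_spec R (Ne.symm hab') e1 (R.symm _ _ h1)
  exact ⟨_, q2, r1, r2⟩

end Pool.Agent.V11100.BC
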