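import Mathlib

/-!
# Biplanes on an even number of points: `k - 2` is a square
-/

set_option autoImplicit false

namespace Pool.Agent.V11100.BC

open Finset Matrix

theorem detone {v : ℕ} (u w : Fin v → ℚ) :
    (1 + Matrix.replicateCol (Fin 1) u * Matrix.replicateRow (Fin 1) w).det = 1 + w ⬝ᵥ u := by
  rw [Matrix.det_one_add_mul_comm, Matrix.det_unique]
  simp [Matrix.mul_apply, dotProduct]

theorem even_square {v k : ℕ} (B : Fin v → Finset (Fin v)) (hk : 3 ≤ k)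
    (hdeg : ∀ p, (univ.filter (fun j => p ∈ B j)).card = k)
    (hpts : ∀ p q, p ≠ q → (univ.filter (fun j => p ∈ B j ∧ q ∈ B j)).card = 2)
    (hv : Even v) (hv0 : 0 < v) (hvk : k * k = (k - 2) + 2 * v) : IsSquare (k - 2) := by
  classical
  let N : Matrix (Fin v) (Fin v) ℚ := Matrix.of fun p j => if p ∈ B j then 1 else 0
  have hNN : N * Nᵀ = ((k - 2 : ℕ) : ℚ) • (1 + Matrix.replicateCol (Fin 1) (fun _ : Fin v => (2 : ℚ) / ((k - 2 : ℕ) : ℚ)) *
      Matrix.replicateRow (Fin 1) (fun _ : Fin v => (1 : ℚ))) := by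
    have hk2 : ((k - 2 : ℕ) : ℚ) ≠ 0 := by
      have : k - 2 ≠ 0 := by omega
      exact_mod_cast this
    ext p q
    have h1 : (N * Nᵀ) p q = (((univ.filter (fun j => p ∈ B j ∧ q ∈ B j)).card : ℕ) : ℚ) := by
      rw [Matrix.mul_apply, Finset.card_filter]
      push_cast
      apply sum_congr rfl
      intro j _
      simp only [N, Matrix.of_apply, Matrix.transpose_apply]
      by_cases h1 : p ∈ B j <;> by_cases h2 : q ∈ B j <;> simp [h1, h2]
    rw [h1]
    simp only [Matrix.smul_apply, Matrix.add_apply, Matrix.mul_apply, Matrix.replicateCol_apply,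
      Matrix.replicateRow_apply, Finset.univ_unique, Finset.sum_singleton, smul_eq_mul, mul_one]
    by_cases hpq : p = q
    · subst hpq
      simp only [and_self, hdeg p, Matrix.one_apply_eq]
      rw [mul_add, mul_one, mul_div_cancel₀ _ hk2]
      have : k = (k - 2) + 2 := by omega
      exact_mod_cast this
    · rw [hpts p q hpq, Matrix.one_apply_ne hpq, zero_add, mul_div_cancel₀ _ hk2]
      norm_num
  have hdet := congrArg Matrix.det hNN
  have hd1 : (1 + Matrix.replicateCol (Fin 1) (fun _ : Fin v => (2 : ℚ) / ((k - 2 : ℕ) : ℚ)) *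
      Matrix.replicateRow (Fin 1) (fun _ : Fin v => (1 : ℚ))).det =
      1 + (fun _ : Fin v => (1 : ℚ)) ⬝ᵥ (fun _ : Fin v => (2 : ℚ) / ((k - 2 : ℕ) : ℚ)) :=
    detone _ _
  rw [Matrix.det_mul, Matrix.det_transpose, Matrix.det_smul, hd1] at hdet
  simp only [dotProduct, Finset.sum_const, Finset.card_univ, Fintype.card_fin, one_mul,
    nsmul_eq_mul] at hdet
  have hk2 : ((k - 2 : ℕ) : ℚ) ≠ 0 := by
    have : k - 2 ≠ 0 := by omega
    exact_mod_cast this
  obtain ⟨w, hw⟩ := hv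
  have hw0 : 0 < w := by omega
  -- det² = a^(2w-1) k²
  have h2 : N.det * N.det = ((k - 2 : ℕ) : ℚ) ^ (2 * (w - 1)) * (((k - 2 : ℕ) : ℚ) * (k : ℚ) ^ 2) := by
    rw [hdet]
    have e1 : v = 2 * (w - 1) + 1 + 1 := by omega
    have e2 : ((k - 2 : ℕ) : ℚ) + 2 * (v : ℚ) = (k : ℚ) ^ 2 := by
      rw [pow_two]; exact_mod_cast hvk.symm
    have e3 : ((k - 2 : ℕ) : ℚ) ^ v = ((k - 2 : ℕ) : ℚ) ^ (2 * (w - 1)) * ((k - 2 : ℕ) : ℚ) *
        ((k - 2 : ℕ) : ℚ) := by
      conv_lhs => rw [e1]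
      rw [pow_succ, pow_succ]
    rw [e3, ← e2]
    field_simp
  have hkk : (k : ℚ) ≠ 0 := by
    have : k ≠ 0 := by omega
    exact_mod_cast this
  have h3 : IsSquare ((k - 2 : ℕ) : ℚ) := by
    refine ⟨N.det / (((k - 2 : ℕ) : ℚ) ^ (w - 1) * k), ?_⟩
    rw [div_mul_div_comm, h2]
    rw [pow_mul']
    field_simp
  exact Rat.isSquare_natCast_iff.1 h3

theorem finish {k v s : ℕ} (hk : 3 ≤ k) (hv : k * k = (k - 2) + 2 * v) (hd : 2 * v ∣ 2 ^ s)
    (hsq : Even v → IsSquare (k - 2)) : k = 3 ∨ k = 6 := by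
  obtain ⟨r, hr, hr2⟩ := (Nat.dvd_prime_pow Nat.prime_two).1 hd
  obtain ⟨j, rfl⟩ : ∃ j, k = j + 2 := ⟨k - 2, by omega⟩
  simp only [Nat.add_sub_cancel] at hv hsq
  have hv4 : 4 ≤ 2 * v := by nlinarith
  have hve : Even v := by
    have hr2' : 2 ≤ r := by
      by_contra h
      have : r = 0 ∨ r = 1 := by omega
      rcases this with rfl | rfl <;> omega
    obtain ⟨r', rfl⟩ : ∃ r', r = r' + 2 := ⟨r - 2, by omega⟩
    refine ⟨2 ^ r', ?_⟩
    have : 2 ^ (r' + 2) = 2 * (2 ^ r' + 2 ^ r') := by ring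
    omega
  obtain ⟨a, ha⟩ := hsq hve
  subst ha
  have ha1 : 1 ≤ a := by
    by_contra h
    have : a = 0 := by omega
    subst this
    omega
  -- (a²-a+2)(a²+a+2) = 2 v
  obtain ⟨b, rfl⟩ : ∃ b, a = b + 1 := ⟨a - 1, by omega⟩
  have hfac : (b * b + b + 2) * (b * b + 3 * b + 4) = 2 ^ r := by
    rw [← hr2]
    have : 2 * v + (b + 1) * (b + 1) = ((b + 1) * (b + 1) + 2) * ((b + 1) * (b + 1) + 2) := by
      omega
    nlinarith
  obtain ⟨x, hx, hx2⟩ := (Nat.dvd_prime_pow Nat.prime_two).1 (Dvd.intro _ hfac)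
  obtain ⟨y, hy, hy2⟩ := (Nat.dvd_prime_pow Nat.prime_two).1 (Dvd.intro_left _ hfac)
  have hxy : x ≤ y := by
    by_contra h
    have : 2 ^ y < 2 ^ x := Nat.pow_lt_pow_right (by norm_num) (by omega)
    nlinarith
  have hdv : (b * b + b + 2) ∣ (b * b + 3 * b + 4) := by
    rw [hx2, hy2]; exact pow_dvd_pow 2 hxy
  have hdv2 : (b * b + b + 2) ∣ 2 * b + 2 := by
    have h1 : b * b + 3 * b + 4 = (b * b + b + 2) + (2 * b + 2) := by ring
    rw [h1] at hdv
    exact (Nat.dvd_add_right (dvd_refl _)).1 hdv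
  have hle := Nat.le_of_dvd (by omega) hdv2
  have hb : b ≤ 1 := by nlinarith
  interval_cases b
  · left; norm_num
  · right; norm_num

end Pool.Agent.V11100.BC
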