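import Pool.Agent.V11100.BC.Count
import Pool.Agent.V11100.BC.Cube
import Pool.Agent.V11100.BC.Det

/-!
# Counting open claws
-/

set_option autoImplicit false

namespace Pool.Agent.V11100.BC

open Finset

variable {W : Type} {adj : W → W → Prop}

theorem bound (R : Rect W adj) (hirr : ∀ u, ¬ adj u u) {x a b c : W} (hab : a ≠ b)
    (hac : a ≠ c) (hbc : b ≠ c) (xa : adj x a) (xb : adj x b) (xc : adj x c)
    (ho : ¬ Cl R x a b c) (T : Finset (W × W × W × W))
    (hT : ∀ y p q r, p ≠ q → p ≠ r → q ≠ r → adj y p → adj y q → adj y r →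
      ¬ Cl R y p q r → (y, p, q, r) ∈ T) (D : Finset W)
    (hD : ∀ d ∈ D, adj x d ∧ d ≠ a ∧ d ≠ b ∧ d ≠ c) : D.card ≤ 4 * T.card := by
  classical
  let F : W × W × W × W → Finset W := fun τ =>
    {τ.2.2.2, τ.1, oth R a x τ.2.2.1, oth R b x τ.2.2.1}
  have hF : ∀ τ, (F τ).card ≤ 4 := fun τ => Finset.card_le_four
  have hsub : D ⊆ T.biUnion F := by
    intro d hd
    obtain ⟨xd, hda, hdb, hdc⟩ := hD d hd
    rw [mem_biUnion]
    obtain ⟨wad1, wad2, wad3⟩ := oth_spec R (Ne.symm hda) xa xd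
    obtain ⟨wbd1, wbd2, wbd3⟩ := oth_spec R (Ne.symm hdb) xb xd
    obtain ⟨wcd1, wcd2, wcd3⟩ := oth_spec R (Ne.symm hdc) xc xd
    have n1 : oth R x a d ≠ oth R x b d := by
      rw [oth_comm R (Ne.symm hda) xa xd, oth_comm R (Ne.symm hdb) xb xd]
      exact oth_ne R hda hdb hab xd xa xb
    have n2 : oth R x a d ≠ oth R x c d := by
      rw [oth_comm R (Ne.symm hda) xa xd, oth_comm R (Ne.symm hdc) xc xd]
      exact oth_ne R hda hdc hac xd xa xc
    have n3 : oth R x b d ≠ oth R x c d := by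
      rw [oth_comm R (Ne.symm hdb) xb xd, oth_comm R (Ne.symm hdc) xc xd]
      exact oth_ne R hdb hdc hbc xd xb xc
    by_contra hno
    push Not at hno
    apply ho
    refine six R hab hac (Ne.symm hda) hbc (Ne.symm hdb) (Ne.symm hdc) xa xb xc xd ?_ ?_ ?_ ?_
      ?_ ?_ hirr
    · by_contra hh
      exact hno _ (hT x a b d hab (Ne.symm hda) (Ne.symm hdb) xa xb xd hh) (by simp [F])
    · by_contra hh
      exact hno _ (hT x a c d hac (Ne.symm hda) (Ne.symm hdc) xa xc xd hh) (by simp [F])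
    · by_contra hh
      exact hno _ (hT x b c d hbc (Ne.symm hdb) (Ne.symm hdc) xb xc xd hh) (by simp [F])
    · by_contra hh
      exact hno _ (hT d _ _ _ n1 n2 n3 (R.symm _ _ wad3) (R.symm _ _ wbd3) (R.symm _ _ wcd3) hh)
        (by simp [F])
    · intro e c' h1 h2 h3 h4 h5 h6
      by_contra hh
      refine hno _ (hT e _ _ _ (oth_ne R hab (Ne.symm hda) (Ne.symm hdb) xa xb xd) (Ne.symm h2)
        (Ne.symm h3) h4 h5 h6 hh) ?_
      simp only [F]
      rw [oth_inv R (Ne.symm hda) xa xd]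
      simp
    · intro e c' h1 h2 h3 h4 h5 h6
      by_contra hh
      refine hno _ (hT e _ _ _ ?_ (Ne.symm h2) (Ne.symm h3) h4 h5 h6 hh) ?_
      · rw [oth_comm R hab xa xb]
        exact oth_ne R (Ne.symm hab) (Ne.symm hdb) (Ne.symm hda) xb xa xd
      simp only [F]
      rw [oth_inv R (Ne.symm hdb) xb xd]
      simp
  calc D.card ≤ (T.biUnion F).card := card_le_card hsub
    _ ≤ ∑ τ ∈ T, (F τ).card := card_biUnion_le
    _ ≤ ∑ _τ ∈ T, 4 := sum_le_sum fun τ _ => hF τ
    _ = 4 * T.card := by rw [sum_const, smul_eq_mul, mul_comm]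

theorem two_of_card {α : Type} [DecidableEq α] {S : Finset α} (h : S.card = 2) {x : α}
    (hx : x ∈ S) : ∃ y, y ≠ x ∧ y ∈ S ∧ ∀ z ∈ S, z = x ∨ z = y := by
  obtain ⟨p, q, hpq, rfl⟩ := Finset.card_eq_two.1 h
  simp only [mem_insert, mem_singleton] at hx
  rcases hx with rfl | rfl
  · exact ⟨q, hpq.symm, by simp, fun z hz => by simpa using hz⟩
  · exact ⟨p, hpq, by simp, fun z hz => by
      have : z = p ∨ z = x := by simpa using hz
      exact this.symm⟩

end Pool.Agent.V11100.BC
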