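import Pool.Agent.V11100.BC.Rect

/-!
# If all claws close, the number of vertices is a power of two
-/

set_option autoImplicit false

namespace Pool.Agent.V11100.BC

open Finset

variable {W : Type} {adj : W → W → Prop}

/-- If all claws are closed, the number of vertices divides a power of two. -/
theorem card_dvd [Fintype W] (R : Rect W adj) (k : ℕ) (e0 : W × (Fin k → W))
    (he0 : IsLab adj k e0)
    (hc : ∀ x a b c, a ≠ b → a ≠ c → b ≠ c → adj x a → adj x b → adj x c → Cl R x a b c)
    (hconn : ∀ f : W → ℕ, (∀ x y, adj x y → f x ≤ f y) → ∀ x y, f x = f y) :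
    ∃ s : ℕ, Fintype.card W ∣ 2 ^ s := by
  classical
  let E := {e : W × (Fin k → W) // IsLab adj k e}
  let S : Fin k → Equiv.Perm E := fun i =>
    Function.Involutive.toPerm (fun e : E => (⟨sg R i e.1, sg_lab R i e.1 e.2⟩ : E))
      (fun e => Subtype.ext (sg_sg R i e.1 e.2))
  have hS : ∀ i (e : E), (S i e).1 = sg R i e.1 := fun i e => rfl
  have hS2 : ∀ i, S i * S i = 1 := by
    intro i
    ext1 e
    exact Subtype.ext (sg_sg R i e.1 e.2)
  have hSc : ∀ i j, S i * S j = S j * S i := by
    intro i j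
    ext1 e
    exact Subtype.ext (sg_comm R i j e.1 e.2 hc)
  let G : Subgroup (Equiv.Perm E) := Subgroup.closure (Set.range S)
  have hcomm : ∀ x ∈ G, ∀ y ∈ G, x * y = y * x := by
    intro x hx y hy
    have h1 : ∀ y ∈ Set.range S, ∀ x ∈ G, x * y = y * x := by
      rintro _ ⟨j, rfl⟩ x hx
      induction hx using Subgroup.closure_induction with
      | mem x hx => obtain ⟨i, rfl⟩ := hx; exact hSc i j
      | one => simp
      | mul a b _ _ ha hb => rw [mul_assoc, hb, ← mul_assoc, ha, mul_assoc]
      | inv a _ ha =>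
        rw [inv_mul_eq_iff_eq_mul, ← mul_assoc, ha, mul_assoc, mul_inv_cancel, mul_one]
    induction hy using Subgroup.closure_induction with
    | mem y hy => exact h1 y hy x hx
    | one => simp
    | mul a b _ _ ha hb => rw [← mul_assoc, ha, mul_assoc, hb, mul_assoc]
    | inv a _ ha =>
      rw [eq_inv_mul_iff_mul_eq, ← mul_assoc, ← ha, mul_assoc, mul_inv_cancel, mul_one]
  have hsq : ∀ x ∈ G, x * x = 1 := by
    intro x hx
    induction hx using Subgroup.closure_induction with
    | mem x hx => obtain ⟨i, rfl⟩ := hx; exact hS2 i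
    | one => simp
    | mul a b ha' hb' ha hb =>
      have := hcomm a ha' b hb'
      calc a * b * (a * b) = a * (b * a) * b := by group
        _ = a * (a * b) * b := by rw [this]
        _ = (a * a) * (b * b) := by group
        _ = 1 := by rw [ha, hb, one_mul]
    | inv a _ ha =>
      rw [← mul_inv_rev, ha, inv_one]
  have hP : IsPGroup 2 G := by
    intro g
    refine ⟨1, ?_⟩
    rw [pow_one, pow_two]
    exact Subtype.ext (hsq g.1 g.2)
  haveI : Finite E := Subtype.finite
  obtain ⟨s, hs⟩ := hP.card_orbit (⟨e0, he0⟩ : E)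
  refine ⟨s, ?_⟩
  rw [← hs]
  let O : Finset E := (MulAction.orbit G (⟨e0, he0⟩ : E)).toFinite.toFinset
  have hO : ∀ e, e ∈ O ↔ e ∈ MulAction.orbit G (⟨e0, he0⟩ : E) := fun e => by
    simp only [O, Set.Finite.mem_toFinset]
  have hOc : O.card = Nat.card (MulAction.orbit G (⟨e0, he0⟩ : E)) := by
    rw [Nat.card_coe_set_eq, Set.ncard_eq_toFinset_card _ (MulAction.orbit G (⟨e0, he0⟩ : E)).toFinite]
  have hOS : ∀ i e, e ∈ O → S i e ∈ O := by
    intro i e he
    rw [hO] at he ⊢
    have h1 : S i e = (⟨S i, Subgroup.subset_closure ⟨i, rfl⟩⟩ : G) • e := rfl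
    rw [h1]
    exact (MulAction.orbit_eq_iff.2 he) ▸ MulAction.mem_orbit e _
  let f : W → ℕ := fun x => (O.filter (fun e => e.1.1 = x)).card
  have hf : ∀ x y, adj x y → f x ≤ f y := by
    intro x y hxy
    have hex : ∀ e : E, e.1.1 = x → ∃ i, e.1.2 i = y := by
      intro e he
      exact (e.2.2 y).1 (he ▸ hxy)
    have hch : ∀ e : E, ∃ i : Option (Fin k), e.1.1 = x → ∃ j, i = some j ∧ e.1.2 j = y := by
      intro e
      by_cases he : e.1.1 = x
      · obtain ⟨i, hi⟩ := hex e he
        exact ⟨some i, fun _ => ⟨i, rfl, hi⟩⟩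
      · exact ⟨none, fun h => absurd h he⟩
    choose idx hidx using hch
    let φ : E → E := fun e => (idx e).elim e (fun i => S i e)
    have hφ : ∀ e : E, e.1.1 = x → ∃ j, e.1.2 j = y ∧ φ e = S j e := by
      intro e he
      obtain ⟨j, h1, h2⟩ := hidx e he
      exact ⟨j, h2, by simp only [φ, h1, Option.elim_some]⟩
    apply card_le_card_of_injOn φ
    · intro e he
      obtain ⟨h1, h2⟩ := mem_filter.1 he
      obtain ⟨j, h3, h4⟩ := hφ e h2
      rw [h4]
      refine mem_filter.2 ⟨hOS j e h1, ?_⟩
      rw [hS]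
      exact h3
    · intro e he e' he' hee
      obtain ⟨h1, h2⟩ := mem_filter.1 he
      obtain ⟨h1', h2'⟩ := mem_filter.1 he'
      obtain ⟨j, h3, h4⟩ := hφ e h2
      obtain ⟨j', h3', h4'⟩ := hφ e' h2'
      rw [h4, h4'] at hee
      have hjj : j = j' := by
        apply (S j e).2.1
        have a1 : (S j e).1.2 j = x := by
          rw [hS]; simp only [sg, if_true]; exact h2
        have a2 : (S j e).1.2 j' = x := by
          rw [hee, hS]; simp only [sg, if_true]; exact h2'
        rw [a1, a2]
      subst hjj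
      exact (S j).injective hee
  have hall := hconn f hf
  have hsum : O.card = ∑ x : W, f x :=
    card_eq_sum_card_fiberwise (f := fun e : E => e.1.1) (t := univ) (fun _ _ => mem_univ _)
  rw [← hOc, hsum, sum_congr rfl (fun x _ => hall x e0.1), sum_const, smul_eq_mul, card_univ]
  exact dvd_mul_right _ _

end Pool.Agent.V11100.BC
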