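import Mathlib

/-!
# Graphs in which two vertices have no or exactly two common neighbours; labelings
-/

set_option autoImplicit false

namespace Pool.Agent.V11100.BC

open Finset

variable {W : Type} {adj : W → W → Prop}

structure Rect (W : Type) (adj : W → W → Prop) : Prop where
  symm : ∀ a b, adj a b → adj b a
  two : ∀ x a b, a ≠ b → adj x a → adj x b → ∃ y, y ≠ x ∧ adj y a ∧ adj y b ∧
    ∀ z, adj z a → adj z b → z = x ∨ z = y

open Classical in
noncomputable def oth (R : Rect W adj) (x a b : W) : W :=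
  if h : a ≠ b ∧ adj x a ∧ adj x b then (R.two x a b h.1 h.2.1 h.2.2).choose else x

theorem oth_spec (R : Rect W adj) {x a b : W} (h : a ≠ b) (h1 : adj x a) (h2 : adj x b) :
    oth R x a b ≠ x ∧ adj (oth R x a b) a ∧ adj (oth R x a b) b := by
  have hh : a ≠ b ∧ adj x a ∧ adj x b := ⟨h, h1, h2⟩
  have := (R.two x a b h h1 h2).choose_spec
  unfold oth
  rw [dif_pos hh]
  exact ⟨this.1, this.2.1, this.2.2.1⟩

theorem oth_unique (R : Rect W adj) {x a b z : W} (h : a ≠ b) (h1 : adj x a) (h2 : adj x b)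
    (hz : z ≠ x) (h3 : adj z a) (h4 : adj z b) : z = oth R x a b := by
  have hh : a ≠ b ∧ adj x a ∧ adj x b := ⟨h, h1, h2⟩
  have := (R.two x a b h h1 h2).choose_spec
  unfold oth
  rw [dif_pos hh]
  rcases this.2.2.2 z h3 h4 with h5 | h5
  · exact absurd h5 hz
  · exact h5

/-- three common neighbours are impossible -/
theorem three (R : Rect W adj) {x w a b c : W} (hxw : x ≠ w) (hab : a ≠ b) (hac : a ≠ c)
    (hbc : b ≠ c) (a1 : adj x a) (a2 : adj x b) (a3 : adj x c) (b1 : adj w a) (b2 : adj w b)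
    (b3 : adj w c) : False := by
  have e1 := oth_unique R (x := a) (a := x) (b := w) (z := b) hxw (R.symm _ _ a1) (R.symm _ _ b1)
    hab.symm (R.symm _ _ a2) (R.symm _ _ b2)
  have e2 := oth_unique R (x := a) (a := x) (b := w) (z := c) hxw (R.symm _ _ a1) (R.symm _ _ b1)
    hac.symm (R.symm _ _ a3) (R.symm _ _ b3)
  exact hbc (e1.trans e2.symm)

theorem oth_comm (R : Rect W adj) {x a b : W} (h : a ≠ b) (h1 : adj x a) (h2 : adj x b) :
    oth R x a b = oth R x b a := by
  obtain ⟨s1, s2, s3⟩ := oth_spec R h h1 h2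
  exact oth_unique R h.symm h2 h1 s1 s3 s2

theorem oth_inv (R : Rect W adj) {x a b : W} (h : a ≠ b) (h1 : adj x a) (h2 : adj x b) :
    oth R a x (oth R x a b) = b := by
  obtain ⟨s1, s2, s3⟩ := oth_spec R h h1 h2
  exact (oth_unique R (x := a) s1.symm (R.symm _ _ h1) (R.symm _ _ s2) h.symm (R.symm _ _ h2)
    (R.symm _ _ s3)).symm

theorem oth_ne (R : Rect W adj) {x a b c : W} (hab : a ≠ b) (hac : a ≠ c) (hbc : b ≠ c)
    (h1 : adj x a) (h2 : adj x b) (h3 : adj x c) : oth R x a b ≠ oth R x a c := by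
  intro h
  obtain ⟨s1, s2, s3⟩ := oth_spec R hab h1 h2
  obtain ⟨t1, t2, t3⟩ := oth_spec R hac h1 h3
  rw [← h] at t3
  exact three R s1.symm hab hac hbc h1 h2 h3 s2 s3 t3

theorem not_adj_third (R : Rect W adj) {x a b c : W} (hab : a ≠ b) (hac : a ≠ c) (hbc : b ≠ c)
    (h1 : adj x a) (h2 : adj x b) (h3 : adj x c) : ¬ adj c (oth R x a b) := by
  intro h
  obtain ⟨s1, s2, s3⟩ := oth_spec R hab h1 h2
  exact three R s1.symm hab hac hbc h1 h2 h3 s2 s3 (R.symm _ _ h)

/-- the claw `x; a, b, c` is closed -/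
def Cl (R : Rect W adj) (x a b c : W) : Prop :=
  ∃ d, adj d (oth R x a b) ∧ adj d (oth R x a c) ∧ adj d (oth R x b c)

def IsLab (adj : W → W → Prop) (k : ℕ) (e : W × (Fin k → W)) : Prop :=
  Function.Injective e.2 ∧ ∀ y, adj e.1 y ↔ ∃ i, e.2 i = y

noncomputable def sg (R : Rect W adj) {k : ℕ} (i : Fin k) (e : W × (Fin k → W)) :
    W × (Fin k → W) :=
  (e.2 i, fun j => if j = i then e.1 else oth R e.1 (e.2 i) (e.2 j))

theorem sg_lab (R : Rect W adj) {k : ℕ} (i : Fin k) (e : W × (Fin k → W))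
    (he : IsLab adj k e) : IsLab adj k (sg R i e) := by
  have ha : ∀ j, adj e.1 (e.2 j) := fun j => (he.2 _).2 ⟨j, rfl⟩
  refine ⟨?_, ?_⟩
  · intro j l hjl
    simp only [sg] at hjl
    by_cases hj : j = i <;> by_cases hl : l = i
    · rw [hj, hl]
    · rw [if_pos hj, if_neg hl] at hjl
      exact absurd hjl.symm (oth_spec R (fun h => hl (he.1 h).symm) (ha i) (ha l)).1
    · rw [if_neg hj, if_pos hl] at hjl
      exact absurd hjl (oth_spec R (fun h => hj (he.1 h).symm) (ha i) (ha j)).1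
    · rw [if_neg hj, if_neg hl] at hjl
      by_contra hne
      exact oth_ne R (fun h => hj (he.1 h).symm) (fun h => hl (he.1 h).symm)
        (fun h => hne (he.1 h)) (ha i) (ha j) (ha l) hjl
  · intro y
    simp only [sg]
    constructor
    · intro hy
      by_cases hyx : y = e.1
      · exact ⟨i, by rw [if_pos rfl, hyx]⟩
      · obtain ⟨s1, s2, s3⟩ := oth_spec R (x := e.2 i) (a := e.1) (b := y) (Ne.symm hyx)
          (R.symm _ _ (ha i)) hy
        obtain ⟨j, hj⟩ := (he.2 _).1 (R.symm _ _ s2)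
        have hji : j ≠ i := by
          rintro rfl
          exact s1 hj.symm
        refine ⟨j, ?_⟩
        rw [if_neg hji]
        symm
        apply oth_unique R (fun h => hji (he.1 h).symm) (ha i) (ha j) hyx (R.symm _ _ hy)
        rw [hj]
        exact R.symm _ _ s3
    · rintro ⟨j, rfl⟩
      by_cases hj : j = i
      · rw [if_pos hj]; exact R.symm _ _ (ha i)
      · rw [if_neg hj]
        exact R.symm _ _ (oth_spec R (fun h => hj (he.1 h).symm) (ha i) (ha j)).2.1

theorem sg_sg (R : Rect W adj) {k : ℕ} (i : Fin k) (e : W × (Fin k → W))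
    (he : IsLab adj k e) : sg R i (sg R i e) = e := by
  have ha : ∀ j, adj e.1 (e.2 j) := fun j => (he.2 _).2 ⟨j, rfl⟩
  refine Prod.ext ?_ ?_
  · simp [sg]
  · funext j
    by_cases hj : j = i
    · simp [sg, hj]
    · simp only [sg, if_neg hj, if_true]
      exact oth_inv R (fun h => hj (he.1 h).symm) (ha i) (ha j)

theorem sg_comm (R : Rect W adj) {k : ℕ} (i j : Fin k) (e : W × (Fin k → W))
    (he : IsLab adj k e) (hc : ∀ x a b c, a ≠ b → a ≠ c → b ≠ c → adj x a → adj x b → adj x c →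
      Cl R x a b c) : sg R i (sg R j e) = sg R j (sg R i e) := by
  by_cases hij : i = j
  · rw [hij]
  have ha : ∀ j, adj e.1 (e.2 j) := fun j => (he.2 _).2 ⟨j, rfl⟩
  have hne : ∀ {a b : Fin k}, a ≠ b → e.2 a ≠ e.2 b := fun h h' => h (he.1 h')
  have hji : j ≠ i := Ne.symm hij
  refine Prod.ext ?_ ?_
  · simp only [sg, if_neg hij, if_neg hji]
    exact oth_comm R (hne hji) (ha j) (ha i)
  · funext u
    by_cases hui : u = i
    · subst hui
      simp only [sg, if_neg hij, if_neg hji, if_true]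
      obtain ⟨s1, s2, s3⟩ := oth_spec R (hne hij) (ha u) (ha j)
      exact oth_unique R s1 (R.symm _ _ s2) (R.symm _ _ (ha u)) (hne hji) (R.symm _ _ s3)
        (R.symm _ _ (ha j))
    · by_cases huj : u = j
      · subst huj
        simp only [sg, if_neg hij, if_neg hji, if_true]
        obtain ⟨s1, s2, s3⟩ := oth_spec R (hne hji) (ha u) (ha i)
        exact (oth_unique R s1 (R.symm _ _ s2) (R.symm _ _ (ha u)) (hne hij) (R.symm _ _ s3)
          (R.symm _ _ (ha i))).symm
      · simp only [sg, if_neg hij, if_neg hji, if_neg hui, if_neg huj]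
        obtain ⟨d, d1, d2, d3⟩ := hc e.1 (e.2 i) (e.2 j) (e.2 u) (hne hij) (hne (Ne.symm hui))
          (hne (Ne.symm huj)) (ha i) (ha j) (ha u)
        have hdj : d ≠ e.2 j := by
          rintro rfl
          exact not_adj_third R (hne (Ne.symm hui)) (hne hij) (hne huj) (ha i) (ha u) (ha j) d2
        have hdi : d ≠ e.2 i := by
          rintro rfl
          exact not_adj_third R (hne (Ne.symm huj)) (hne hji) (hne hui) (ha j) (ha u) (ha i) d3
        obtain ⟨s1, s2, s3⟩ := oth_spec R (hne hij) (ha i) (ha j)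
        obtain ⟨t1, t2, t3⟩ := oth_spec R (hne (Ne.symm hui)) (ha i) (ha u)
        obtain ⟨u1, u2, u3⟩ := oth_spec R (hne (Ne.symm huj)) (ha j) (ha u)
        have e1 : d = oth R (e.2 j) (oth R e.1 (e.2 j) (e.2 i)) (oth R e.1 (e.2 j) (e.2 u)) := by
          rw [oth_comm R (hne hji) (ha j) (ha i)]
          apply oth_unique R _ (R.symm _ _ s3) (R.symm _ _ u2) hdj d1 d3
          rw [oth_comm R (hne hij) (ha i) (ha j)]
          exact oth_ne R (hne hji) (hne (Ne.symm huj)) (hne (Ne.symm hui)) (ha j) (ha i) (ha u)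
        have e2 : d = oth R (e.2 i) (oth R e.1 (e.2 i) (e.2 j)) (oth R e.1 (e.2 i) (e.2 u)) := by
          apply oth_unique R _ (R.symm _ _ s2) (R.symm _ _ t2) hdi d1 d2
          exact oth_ne R (hne hij) (hne (Ne.symm hui)) (hne (Ne.symm huj)) (ha i) (ha j) (ha u)
        rw [← e1, ← e2]

end Pool.Agent.V11100.BC
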